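import Pool.Agent.H73.CBD.Stmts

/-! # Row NRM of the board `cbd`: the normalisation is Lipschitz off the origin -/

set_option autoImplicit false

namespace Pool.CBD

private theorem nrm_norm_one (z : V) (hz : z ≠ 0) : ‖nrm z‖ = 1 := by
  have h : 0 < ‖z‖ := norm_pos_iff.mpr hz
  unfold nrm
  rw [norm_smul, Real.norm_eq_abs, abs_of_pos (inv_pos.mpr h)]
  exact inv_mul_cancel₀ h.ne'

theorem NRM_thm : NRMStmt := by
  refine ⟨?_, ?_⟩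
  · intro z w hz hw
    have hz' : 0 < ‖z‖ := norm_pos_iff.mpr hz
    have hw' : 0 < ‖w‖ := norm_pos_iff.mpr hw
    have h1 : nrm z - nrm w = (‖z‖⁻¹ : ℝ) • (z - w) + ((‖z‖⁻¹ : ℝ) - ‖w‖⁻¹) • w := by
      unfold nrm
      rw [smul_sub, sub_smul]
      abel
    have h2 : ‖(‖z‖⁻¹ : ℝ) • (z - w)‖ = ‖z - w‖ / ‖z‖ := by
      rw [norm_smul, Real.norm_eq_abs, abs_of_pos (inv_pos.mpr hz'), div_eq_inv_mul]
    have h3 : ‖((‖z‖⁻¹ : ℝ) - ‖w‖⁻¹) • w‖ ≤ ‖z - w‖ / ‖z‖ := by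
      rw [norm_smul, Real.norm_eq_abs]
      have h4 : (‖z‖⁻¹ : ℝ) - ‖w‖⁻¹ = (‖w‖ - ‖z‖) / (‖z‖ * ‖w‖) := by
        field_simp
      rw [h4, abs_div, abs_of_pos (mul_pos hz' hw')]
      have h5 : |‖w‖ - ‖z‖| ≤ ‖z - w‖ := by
        rw [abs_sub_comm]
        exact abs_norm_sub_norm_le z w
      have h6 : |‖w‖ - ‖z‖| / (‖z‖ * ‖w‖) * ‖w‖ = |‖w‖ - ‖z‖| / ‖z‖ := by
        field_simp
      rw [h6]
      exact div_le_div_of_nonneg_right h5 hz'.le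
    calc ‖nrm z - nrm w‖ ≤ ‖(‖z‖⁻¹ : ℝ) • (z - w)‖ + ‖((‖z‖⁻¹ : ℝ) - ‖w‖⁻¹) • w‖ := by
          rw [h1]; exact norm_add_le _ _
      _ ≤ ‖z - w‖ / ‖z‖ + ‖z - w‖ / ‖z‖ := by rw [h2]; exact add_le_add le_rfl h3
      _ = 2 * ‖z - w‖ / ‖z‖ := by ring
  · intro z hz
    have h := nrm_norm_one z hz
    refine ⟨h, ?_⟩
    intro h0
    rw [h0, norm_zero] at h
    exact zero_ne_one h

end Pool.CBD
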